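import Pool.Agent.H60.ZCL.BTail

/-!
# Canonical objects

If every member of a class has a large subevent with an object which has a hereditary property
there, then a nonempty subclass has canonical objects: functions of the family alone, which have
the property on all events of the subclass. The same for countably many properties.
-/

set_option autoImplicit false

namespace Pool.CHO

open Finset Real
open Pool.Agent.H49.Ent Pool.Agent.H32.Dense Pool.STK Pool.KA Pool.K2S Pool.PB Pool.S6C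

variable {m : ℕ}

/-- The best event of a family of a class. -/
theorem best (S : PCl m) (J : ℕ) (F : Fam m J)
    (h : ∃ (τ : ℝ) (A : F.Ω → Prop), 0 < τ ∧ S.St τ J F A) :
    ∃ A₀ : F.Ω → Prop, ∀ (τ τ' : ℝ) (A : F.Ω → Prop), 0 < τ → τ < τ' → S.St τ J F A →
      S.St τ' J F A₀ := by
  classical
  obtain ⟨f, hf⟩ : ∃ f : (F.Ω → Prop) → ℝ, f = fun A => sInf {τ : ℝ | 0 < τ ∧ S.St τ J F A} :=
    ⟨_, rfl⟩
  have hb : ∀ A, BddBelow {τ : ℝ | 0 < τ ∧ S.St τ J F A} := fun A => ⟨0, fun τ hτ => hτ.1.le⟩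
  obtain ⟨E, hE⟩ : ∃ E : Finset (F.Ω → Prop), E = univ.filter fun A => ∃ τ, 0 < τ ∧
    S.St τ J F A := ⟨_, rfl⟩
  have hne : E.Nonempty := by
    obtain ⟨τ, A, h1, h2⟩ := h
    exact ⟨A, by rw [hE, mem_filter]; exact ⟨mem_univ _, τ, h1, h2⟩⟩
  obtain ⟨A₀, hA₀, hmin⟩ := E.exists_min_image f hne
  refine ⟨A₀, fun τ τ' A h0 h1 hA => ?_⟩
  rw [hE, mem_filter] at hA₀
  have hAE : A ∈ E := by
    rw [hE, mem_filter]
    exact ⟨mem_univ _, τ, h0, hA⟩
  have h2 : f A₀ < τ' := by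
    refine lt_of_le_of_lt (hmin A hAE) (lt_of_le_of_lt ?_ h1)
    rw [hf]
    exact csInf_le (hb A) ⟨h0, hA⟩
  rw [hf] at h2
  obtain ⟨τ'', ⟨h3, h4⟩, h5⟩ := exists_lt_of_csInf_lt hA₀.2 h2
  exact S.mono h5.le h4

/-- **Canonical objects.** -/
theorem pick {S : PCl m} (hS : S.Ne) {X : ∀ J : ℕ, Fam m J → Type} [∀ J F, Nonempty (X J F)]
    (R : ∀ (J : ℕ) (F : Fam m J), (F.Ω → Prop) → X J F → Prop)
    (hR : ∀ (J : ℕ) (F : Fam m J) (A B : F.Ω → Prop) (x : X J F), Sub B A → R J F A x →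
      R J F B x) (K : ℝ)
    (h : Bas S (fun J F A => ∃ B, Sub B A ∧ Pe F.p A ≤ K * Pe F.p B ∧ ∃ x, R J F B x)) :
    ∃ (P : Sld m) (x : ∀ (J : ℕ) (F : Fam m J), X J F), (S.sl P).Ne ∧
      ∀ (τ : ℝ) (J : ℕ) (F : Fam m J) (A : F.Ω → Prop), P.P τ J F A → R J F A (x J F) := by
  classical
  obtain ⟨τ₀, hτ₀, J₀, hb⟩ := h
  -- the chosen event and object
  have key : ∀ (J : ℕ) (F : Fam m J), ∃ (B : F.Ω → Prop) (x : X J F) (g : Prop),
      (g → R J F B x) ∧ (J₀ ≤ J → ∀ (τ τ' : ℝ) (A : F.Ω → Prop), 0 < τ → τ < τ' → τ' ≤ τ₀ →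
        S.St τ J F A → g ∧ ∃ A' : F.Ω → Prop, S.St τ' J F A' ∧ Sub B A' ∧
          Pe F.p A' ≤ K * Pe F.p B) := by
    intro J F
    by_cases h1 : ∃ (τ τ' : ℝ) (A : F.Ω → Prop), 0 < τ ∧ τ < τ' ∧ τ' ≤ τ₀ ∧ S.St τ J F A ∧ J₀ ≤ J
    · obtain ⟨τ, τ', A, a1, a2, a3, a4, a5⟩ := h1
      obtain ⟨A₀, hA₀⟩ := best S J F ⟨τ, A, a1, a4⟩
      obtain ⟨B, b1, b2, x, b3⟩ := hb J a5 F A₀ (S.mono a3 (hA₀ τ τ' A a1 a2 a4))
      refine ⟨B, x, True, fun _ => b3, fun _ t t' A' c1 c2 _ c3 => ⟨trivial, A₀,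
        hA₀ t t' A' c1 c2 c3, b1, b2⟩⟩
    · refine ⟨fun _ => False, Classical.arbitrary _, False, fun h => h.elim, ?_⟩
      intro h2 τ τ' A a1 a2 a3 a4
      exact absurd ⟨τ, τ', A, a1, a2, a3, a4, h2⟩ h1
  choose B x g hg hk using key
  refine ⟨{ P := fun _ J F A => g J F ∧ Sub A (B J F)
            mono := fun _ h => h
            res := fun _ h hB _ => ⟨h.1, fun ω hω => h.2 ω (hB ω hω)⟩ }, x, ?_, ?_⟩
  · intro τ hτ J₁
    obtain ⟨t, ht⟩ : ∃ t : ℝ, t = min τ τ₀ / 3 := ⟨_, rfl⟩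
    have ht0 : 0 < t := by
      rw [ht]
      have := lt_min hτ hτ₀
      linarith
    have ht1 : 3 * t ≤ τ := by
      rw [ht]
      have := min_le_left τ τ₀
      linarith
    have ht2 : 3 * t ≤ τ₀ := by
      rw [ht]
      have := min_le_right τ τ₀
      linarith
    obtain ⟨N, hN⟩ : ∃ N : ℕ, |K| ≤ N * t := by
      obtain ⟨N, hN⟩ := exists_nat_ge (|K| / t)
      exact ⟨N, by rwa [div_le_iff₀ ht0] at hN⟩
    obtain ⟨J, hJ, F, A, hA⟩ := hS t ht0 (J₁ + J₀ + N)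
    obtain ⟨c1, A', c2, c3, c4⟩ := hk J F (by omega) t (2 * t) A ht0 (by linarith)
      (by linarith) hA
    refine ⟨J, by omega, F, B J F, S.mono ht1 ?_, c1, fun _ h => h⟩
    have e1 : 3 * t = 2 * t + t := by ring
    rw [e1]
    refine S.res ht0.le c2 c3 ?_
    have hp : 0 ≤ Pe F.p (B J F) := Pe_nonneg F.isLaw _
    have hJN : (N : ℝ) ≤ J := by
      have : N ≤ J := by omega
      exact_mod_cast this
    have hK : K ≤ Real.exp (t * J) := by
      have h1 := Real.add_one_le_exp (t * J)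
      have h2 : (N : ℝ) * t ≤ J * t := mul_le_mul_of_nonneg_right hJN ht0.le
      have h3 := le_abs_self K
      linarith
    have h1 : Pe F.p A' ≤ Real.exp (t * J) * Pe F.p (B J F) :=
      c4.trans (mul_le_mul_of_nonneg_right hK hp)
    calc Real.exp (-(t * J)) * Pe F.p A'
        ≤ Real.exp (-(t * J)) * (Real.exp (t * J) * Pe F.p (B J F)) :=
          mul_le_mul_of_nonneg_left h1 (Real.exp_pos _).le
      _ = Pe F.p (B J F) := by
          rw [← mul_assoc, ← Real.exp_add, neg_add_cancel, Real.exp_zero, one_mul]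
  · rintro τ J F A ⟨h1, h2⟩
    exact hR J F (B J F) A (x J F) h2 (hg J F h1)

/-- **Countably many canonical objects.** -/
theorem picks {S : PCl m} (hS : S.Ne) {X : ℕ → ∀ J : ℕ, Fam m J → Type}
    [∀ n J F, Nonempty (X n J F)]
    (R : ∀ (n J : ℕ) (F : Fam m J), (F.Ω → Prop) → X n J F → Prop)
    (hR : ∀ (n J : ℕ) (F : Fam m J) (A B : F.Ω → Prop) (x : X n J F), Sub B A → R n J F A x →
      R n J F B x) (K : ℕ → ℝ)
    (h : ∀ n, Bas S (fun J F A => ∃ B, Sub B A ∧ Pe F.p A ≤ K n * Pe F.p B ∧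
      ∃ x, R n J F B x)) :
    ∃ S' : PCl m, S'.Ne ∧
      (∀ (τ : ℝ) (J : ℕ) (F : Fam m J) (A : F.Ω → Prop), S'.St τ J F A → S.St τ J F A) ∧
      ∃ x : ∀ (n J : ℕ) (F : Fam m J), X n J F, ∀ n,
        Bas S' (fun J F A => R n J F A (x n J F)) := by
  classical
  obtain ⟨S', h1, h2, -, h4⟩ := hS.diag
    (fun n S₁ P => ∃ x : ∀ (J : ℕ) (F : Fam m J), X n J F,
      ∀ (τ : ℝ) (J : ℕ) (F : Fam m J) (A : F.Ω → Prop), P.P τ J F A → R n J F A (x J F)) (by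
    intro n S₁ hle hn
    have hb : Bas S₁ (fun J F A => ∃ B, Sub B A ∧ Pe F.p A ≤ K n * Pe F.p B ∧
        ∃ x, R n J F B x) := by
      obtain ⟨τ, hτ, J₁, hb⟩ := h n
      obtain ⟨t, ht, hl⟩ := hle
      exact ⟨min τ t, lt_min hτ ht, J₁, fun J hJ F A hA => hb J hJ F A
        (S.mono (min_le_left _ _) (hl _ (lt_min hτ ht) (min_le_right _ _) J F A hA))⟩
    obtain ⟨P, x, a1, a2⟩ := pick hn (R n) (hR n) (K n) hb
    exact ⟨P, ⟨x, a2⟩, a1⟩)
  have key : ∀ n, ∃ x : ∀ (J : ℕ) (F : Fam m J), X n J F,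
      Bas S' (fun J F A => R n J F A (x J F)) := by
    intro n
    obtain ⟨S₁, P, ⟨x, hx⟩, -, -, -, hall⟩ := h4 n
    refine ⟨x, 1 / ((n : ℝ) + 1), by positivity, 0, fun J _ F A hA => ?_⟩
    refine hx _ J F A (hall (1 / ((n : ℝ) + 1)) J F A ?_ hA).2
    rw [mul_one_div_cancel]
    positivity
  choose x hx using key
  exact ⟨S', h1, h2, x, hx⟩

end Pool.CHO
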